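import Pool.Agent.H499R2.LT.R6
import Pool.Agent.W38.AH

set_option autoImplicit false

/-!
# MP_e43fce_nt: total stopping times of affine neighbours and clusters of exceptions

`l(n)` is the total stopping time of the Collatz function `C`, `∞` if `1` is not reached, and
`κ(n) = √(log n) / (log log n) ^ 16`.  An affine neighbour of `n` is an integer `m ≥ 0` with
`|2^a 3^b m - 2^a' 3^b' n| ≤ exp (κ n)` for some exponents `a, b, a', b' ≤ κ n`; for example all
`m` with `|m - n| ≤ exp (κ n)`, and all `m` close to `6 n`, `n / 2`, `9 n / 8`.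

(1) For almost all `n` (natural density one) ALL affine neighbours `m` of `n` satisfy
`l(m) + a + b' = l(n) + a' + b`.  So `l(m) = l(n)` if `|m - n| ≤ exp (κ n)`, `l(m) = l(n) + 1` if
`|m - 2 n| ≤ exp (κ n)`, `l(m) = l(n) - 1` if `|m - 3 n| ≤ exp (κ n)`.

(2) The exceptions to the inequality `l(n) ≤ n` come in clusters: if `δ` is their density, then in each
residue class modulo `q` the `n` all of whose affine neighbours `m` satisfy `l(m) ≤ m` have the
density `(1 - δ) / q`, and the `n` all of whose affine neighbours satisfy `l(m) > m` have the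
density `δ / q`; and `δ < 1`, `δ = 0` if and only if all positive integers reach `1`.
-/

namespace Pool.Agent.Results.MP_e43fce_nt.TimesOfAffineNeighbours

open Filter Topology
open Pool.Agent.H499R2.ND (Tn)
open Pool.Agent.H499R2.LT (odn)
open Pool.Agent.H499R2.HL (H odn_add)
open Pool.Agent.H499R2.CO (HD HD_congr HD_not)

/-- the Collatz function -/
def C (n : ℕ) : ℕ := if n % 2 = 0 then n / 2 else 3 * n + 1

/-- the total stopping time: the least `k` with `C^k(n) = 1`, and `⊤ = ∞` if there is none -/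
noncomputable def l (n : ℕ) : ℕ∞ := sInf {k : ℕ∞ | ∃ j : ℕ, C^[j] n = 1 ∧ k = j}

/-- the positive integers with the property `P` have the natural density `δ` -/
def HasDensity (P : ℕ → Prop) (δ : ℝ) : Prop :=
  Tendsto (fun N : ℕ => ({n : ℕ | 1 ≤ n ∧ n ≤ N ∧ P n}.ncard : ℝ) / N) atTop (𝓝 δ)

/-- the scale `√ (log n) / (log log n) ^ 16` -/
noncomputable def κ (n : ℕ) : ℝ := √ (Real.log n) / (Real.log (Real.log n)) ^ 16

/-- the integers `n` and `m` are linked by the exponents `a, b, a', b'`: all the exponents are `≤ κ n`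
and `|2^a 3^b m - 2^a' 3^b' n| ≤ exp (κ n)` -/
def Linked (n m a b a' b' : ℕ) : Prop :=
  (a : ℝ) ≤ κ n ∧ (b : ℝ) ≤ κ n ∧ (a' : ℝ) ≤ κ n ∧ (b' : ℝ) ≤ κ n ∧
    |((2 ^ a * 3 ^ b * (m : ℤ) - 2 ^ a' * 3 ^ b' * (n : ℤ) : ℤ) : ℝ)| ≤ Real.exp (κ n)

/-- `m` is an affine neighbour of `n` -/
def Neighbour (n m : ℕ) : Prop := ∃ a b a' b' : ℕ, Linked n m a b a' b'

/-! ### stopping times -/

theorem Tn_even {n : ℕ} (h : n % 2 = 0) : Tn n = C n := by
  simp only [Tn]; unfold C; rw [if_pos h, if_pos h]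

theorem Tn_odd {n : ℕ} (h : ¬ n % 2 = 0) : Tn n = C (C n) := by
  simp only [Tn]; unfold C
  rw [if_neg h, if_neg h, if_pos (by omega)]

theorem odn_one (n : ℕ) : odn 1 n = if n % 2 = 0 then 0 else 1 := by
  unfold odn
  rcases Nat.mod_two_eq_zero_or_one n with h | h
  · rw [if_pos h, Finset.range_one, Finset.filter_singleton]
    simp [h]
  · rw [if_neg (by omega), Finset.range_one, Finset.filter_singleton]
    simp [h]

theorem odn_succ' (i n : ℕ) : odn (i + 1) n = (if n % 2 = 0 then 0 else 1) + odn i (Tn n) := by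
  rw [Nat.add_comm i 1, odn_add, odn_one, Function.iterate_one]

/-- `T`-iterates as `C`-iterates -/
theorem C_iter (k : ℕ) : ∀ n : ℕ, C^[k + odn k n] n = Tn^[k] n := by
  induction k with
  | zero => intro n; simp [odn]
  | succ k ih =>
    intro n
    rw [odn_succ', Function.iterate_succ_apply Tn, ← ih (Tn n)]
    by_cases h : n % 2 = 0
    · rw [if_pos h, Tn_even h, show k + 1 + (0 + odn k (C n)) = (k + odn k (C n)) + 1 by ring,
        Function.iterate_succ_apply]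
    · rw [if_neg h, Tn_odd h,
        show k + 1 + (1 + odn k (C (C n))) = ((k + odn k (C (C n))) + 1) + 1 by ring,
        Function.iterate_succ_apply, Function.iterate_succ_apply]

/-- the times at which the `C`-trajectory is at `1` -/
theorem C_hit (j : ℕ) : ∀ n : ℕ, C^[j] n = 1 → ∃ i, j = i + odn i n ∧ Tn^[i] n = 1 := by
  induction j using Nat.strong_induction_on with
  | _ j ih =>
    intro n hn
    rcases j with _ | j
    · exact ⟨0, by simp [odn], by simpa using hn⟩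
    · rw [Function.iterate_succ_apply] at hn
      by_cases h : n % 2 = 0
      · rw [← Tn_even h] at hn
        obtain ⟨i, h1, h2⟩ := ih j (by omega) (Tn n) hn
        refine ⟨i + 1, ?_, by rw [Function.iterate_succ_apply]; exact h2⟩
        rw [odn_succ', if_pos h]
        omega
      · rcases j with _ | j
        · exfalso
          rw [Function.iterate_zero, id] at hn
          unfold C at hn
          rw [if_neg h] at hn
          omega
        · rw [Function.iterate_succ_apply, ← Tn_odd h] at hn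
          obtain ⟨i, h1, h2⟩ := ih j (by omega) (Tn n) hn
          refine ⟨i + 1, ?_, by rw [Function.iterate_succ_apply]; exact h2⟩
          rw [odn_succ', if_neg h]
          omega

theorem odn_mono {i k : ℕ} (h : i ≤ k) (n : ℕ) : odn i n ≤ odn k n := by
  obtain ⟨d, rfl⟩ := Nat.exists_eq_add_of_le h
  rw [odn_add]
  omega

theorem odn_le (k n : ℕ) : odn k n ≤ k := by
  unfold odn
  exact (Finset.card_filter_le _ _).trans (by simp)

theorem l_of_H {k n : ℕ} (h : H k n) : l n = ((k + odn k n : ℕ) : ℕ∞) := by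
  unfold l
  apply le_antisymm
  · exact sInf_le ⟨k + odn k n, by rw [C_iter]; exact h.1, rfl⟩
  · refine le_sInf ?_
    rintro _ ⟨j, hj, rfl⟩
    obtain ⟨i, rfl, hi⟩ := C_hit j n hj
    have hki : k ≤ i := by
      by_contra hlt
      exact h.2 i (by omega) hi
    have := odn_mono hki n
    exact_mod_cast (by omega : k + odn k n ≤ i + odn i n)

theorem l_eq_top {n : ℕ} (h : ∀ k, Tn^[k] n ≠ 1) : l n = ⊤ := by
  unfold l
  have : {k : ℕ∞ | ∃ j : ℕ, C^[j] n = 1 ∧ k = j} = ∅ := by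
    rw [Set.eq_empty_iff_forall_notMem]
    rintro _ ⟨j, hj, rfl⟩
    obtain ⟨i, -, hi⟩ := C_hit j n hj
    exact h i hi
  rw [this, sInf_empty]

theorem exists_H {n : ℕ} (h : ∃ k, Tn^[k] n = 1) : ∃ k, H k n := by
  classical
  exact ⟨Nat.find h, Nat.find_spec h, fun i hi => Nat.find_min h hi⟩

theorem l_ne_top {n : ℕ} : l n ≠ ⊤ ↔ ∃ k, Tn^[k] n = 1 := by
  constructor
  · intro h
    by_contra hcon
    push Not at hcon
    exact h (l_eq_top hcon)
  · intro h
    obtain ⟨k, hk⟩ := exists_H h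
    rw [l_of_H hk]
    exact ENat.natCast_ne_top _

/-! ### linked integers -/

theorem linked_iff (n m a b a' b' : ℕ) : Linked n m a b a' b' ↔ Pool.Agent.W38.AF.Lk n m a b a' b' := by
  constructor
  · rintro ⟨h1, h2, h3, h4, h5⟩
    exact ⟨h1, h2, h3, h4, h5⟩
  · rintro ⟨h1, h2, h3, h4, h5⟩
    exact ⟨h1, h2, h3, h4, h5⟩

/-- linked integers have related total stopping times -/
theorem times : ∃ n0 : ℕ, ∀ n ≥ n0, Pool.Agent.W38.AF.Nbr 1 n → ∀ m a b a' b' : ℕ,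
    Linked n m a b a' b' → l m + (a + b' : ℕ) = l n + (a' + b : ℕ) := by
  obtain ⟨n0, hn0⟩ := Pool.Agent.W38.AF.link_data
  refine ⟨max n0 2, fun n hn hE m a b a' b' hL => ?_⟩
  obtain ⟨t, ht, hd⟩ := hn0 n ((le_max_left _ _).trans hn) hE
  have hn2 : 2 ≤ n := (le_max_right _ _).trans hn
  obtain ⟨h1, h2, h3, h4⟩ := hd m a b a' b' ((linked_iff _ _ _ _ _ _).1 hL)
  have hm1 : 1 < m := lt_of_le_of_lt Nat.one_le_two_pow h2
  by_cases hX : ∃ j, H j (Tn^[t + a] n)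
  · obtain ⟨j, hj⟩ := hX
    have e1 : H (t + a + j) n := (Pool.Agent.W38.AF.H_after rfl h3 (by omega) _).2 ⟨j, rfl, hj⟩
    have e2 : H (t + a' + j) m := (Pool.Agent.W38.AF.H_after h1 h2.le hm1 _).2 ⟨j, rfl, hj⟩
    rw [l_of_H e1, l_of_H e2, odn_add (t + a) j n, odn_add (t + a') j m, h1]
    have : t + a' + j + (odn (t + a') m + odn j (Tn^[t + a] n)) + (a + b') =
        t + a + j + (odn (t + a) n + odn j (Tn^[t + a] n)) + (a' + b) := by omega
    exact_mod_cast this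
  · have e1 : l n = ⊤ := by
      apply l_eq_top
      intro k hk
      obtain ⟨k', hk'⟩ := exists_H ⟨k, hk⟩
      obtain ⟨j, -, hj⟩ := (Pool.Agent.W38.AF.H_after rfl h3 (by omega) _).1 hk'
      exact hX ⟨j, hj⟩
    have e2 : l m = ⊤ := by
      apply l_eq_top
      intro k hk
      obtain ⟨k', hk'⟩ := exists_H ⟨k, hk⟩
      obtain ⟨j, -, hj⟩ := (Pool.Agent.W38.AF.H_after h1 h2.le hm1 _).1 hk'
      exact hX ⟨j, hj⟩
    rw [e1, e2, top_add, top_add]

/-- linked integers are not small, and the scale is small -/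
theorem sizes : ∃ n0 : ℕ, ∀ n ≥ n0, ∀ (m : ℤ) (a b a' b' : ℕ),
    (a : ℝ) ≤ κ n → (b : ℝ) ≤ κ n →
    |((2 ^ a * 3 ^ b * m - 2 ^ a' * 3 ^ b' * (n : ℤ) : ℤ) : ℝ)| ≤ Real.exp (κ n) →
    √ n / 2 ≤ m ∧ κ n ≤ √ n / 8 := by
  obtain ⟨n0, hn0⟩ := Pool.Agent.W38.AF.kap_small (C := 64) (by norm_num)
  refine ⟨max n0 16, fun n hn m a b a' b' ha hb hm => ?_⟩
  have hn16 : 16 ≤ n := (le_max_right _ _).trans hn
  have hsm : 64 * Real.exp (64 * κ n) ≤ n := hn0 n ((le_max_left _ _).trans hn)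
  have hK0 : 0 ≤ κ n := Pool.Agent.W38.AF.kap_nonneg n
  set K := κ n with hK
  set W := Real.exp K with hW
  have hW1 : 1 ≤ W := Real.one_le_exp hK0
  have hWp : 64 * W ^ 64 ≤ n := by
    rw [hW, ← Real.exp_nat_mul]
    exact_mod_cast hsm
  have hnR : (16 : ℝ) ≤ n := by exact_mod_cast hn16
  set s := √ (n : ℝ) with hs
  have hss : s * s = n := Real.mul_self_sqrt (by linarith)
  have hs0 : 0 ≤ s := Real.sqrt_nonneg _
  have hW32 : 8 * W ^ 32 ≤ s := by
    apply Real.le_sqrt_of_sq_le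
    have h0 : (8 * W ^ 32) ^ 2 = 64 * W ^ 64 := by ring
    rw [h0]
    exact hWp
  have hKW : K ≤ W := by
    have := Real.add_one_le_exp K
    linarith
  have hW32' : W ≤ W ^ 32 := by
    calc W = W ^ 1 := (pow_one W).symm
      _ ≤ W ^ 32 := pow_le_pow_right₀ hW1 (by norm_num)
  have hW3 : W ^ 3 ≤ W ^ 32 := pow_le_pow_right₀ hW1 (by norm_num)
  have e2 : ∀ c : ℕ, (c : ℝ) ≤ K → (2 : ℝ) ^ c ≤ W := by
    intro c hc
    have h1 : (2 : ℝ) ≤ Real.exp 1 := by linarith [Real.exp_one_gt_d9]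
    calc (2 : ℝ) ^ c ≤ (Real.exp 1) ^ c := pow_le_pow_left₀ (by norm_num) h1 c
      _ = Real.exp c := by rw [← Real.exp_nat_mul, mul_one]
      _ ≤ W := Real.exp_le_exp.2 hc
  have e3 : ∀ c : ℕ, (c : ℝ) ≤ K → (3 : ℝ) ^ c ≤ W ^ 2 := by
    intro c hc
    calc (3 : ℝ) ^ c ≤ (2 ^ 2) ^ c := pow_le_pow_left₀ (by norm_num) (by norm_num) c
      _ = (2 ^ c) ^ 2 := by rw [← pow_mul, ← pow_mul, Nat.mul_comm]
      _ ≤ W ^ 2 := pow_le_pow_left₀ (by positivity) (e2 c hc) 2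
  refine ⟨?_, by linarith⟩
  rw [abs_le] at hm
  push_cast at hm
  have h1 : (n : ℝ) ≤ 2 ^ a' * 3 ^ b' * n := by
    have g1 : (1 : ℝ) ≤ 2 ^ a' := one_le_pow₀ (by norm_num)
    have g2 : (1 : ℝ) ≤ 3 ^ b' := one_le_pow₀ (by norm_num)
    have g3 : (1 : ℝ) ≤ 2 ^ a' * 3 ^ b' := by nlinarith
    nlinarith
  have h2 : (n : ℝ) - W ≤ 2 ^ a * 3 ^ b * m := by linarith [hm.1]
  have hm0 : 0 < (m : ℝ) := by
    by_contra hneg
    push Not at hneg
    have g1 : (0 : ℝ) < 2 ^ a * 3 ^ b := by positivity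
    have g2 : (2 : ℝ) ^ a * 3 ^ b * m ≤ 0 := mul_nonpos_of_nonneg_of_nonpos g1.le hneg
    have g3 : W < n := by nlinarith
    linarith
  have h3 : (2 : ℝ) ^ a * 3 ^ b * m ≤ W ^ 3 * m := by
    apply mul_le_mul_of_nonneg_right _ hm0.le
    calc (2 : ℝ) ^ a * 3 ^ b ≤ W * W ^ 2 := by
          apply mul_le_mul (e2 a ha) (e3 b hb) (by positivity) (by positivity)
      _ = W ^ 3 := by ring
  have h4 : W ^ 3 * m ≤ s * m := by
    apply mul_le_mul_of_nonneg_right _ hm0.le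
    have : 0 ≤ W ^ 32 := by positivity
    linarith
  have h5 : s * s - W ≤ s * m := by
    rw [hss]
    linarith
  have h6 : W ≤ s / 8 := by linarith
  have hs1 : 1 ≤ s := by nlinarith
  by_contra hcon
  push Not at hcon
  nlinarith

/-- natural affine neighbours and the neighbours of the library -/
theorem nb_iff : ∃ n0 : ℕ, ∀ n ≥ n0, ∀ S : Set ℤ,
    (∀ m : ℤ, Pool.Agent.W38.AF.NB n (1 * n) m → m ∈ S) ↔ ∀ m : ℕ, Neighbour n m → (m : ℤ) ∈ S := by
  obtain ⟨n0, hn0⟩ := sizes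
  refine ⟨n0, fun n hn S => ⟨fun h m hm => ?_, fun h m hm => ?_⟩⟩
  · obtain ⟨a, b, a', b', h1, h2, h3, h4, h5⟩ := hm
    refine h m ⟨a, a', b, b', h1, h3, h2, h4, ?_⟩
    rw [one_mul]
    exact h5
  · obtain ⟨a, a', b, b', h1, h3, h2, h4, h5⟩ := hm
    rw [one_mul] at h5
    obtain ⟨h6, -⟩ := hn0 n hn m a b a' b' h1 h2 h5
    have h7 : (0 : ℝ) ≤ m := le_trans (by positivity) h6
    have h8 : 0 ≤ m := by exact_mod_cast h7
    obtain ⟨k, rfl⟩ := Int.eq_ofNat_of_zero_le h8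
    exact h k ⟨a, b, a', b', h1, h2, h3, h4, h5⟩


/-! ### integers with a finite but long total stopping time -/

theorem fin_le (P : ℕ → Prop) (N : ℕ) : {n : ℕ | 1 ≤ n ∧ n ≤ N ∧ P n}.Finite :=
  (Set.finite_Icc 1 N).subset fun _ h => ⟨h.1, h.2.1⟩

/-- sandwich -/
theorem dens_of {P U : ℕ → Prop} {δ : ℝ} (hU : HD U δ) (hPU : ∀ n, P n → U n)
    (hlow : ∀ ε : ℝ, 0 < ε → ∃ (Q : ℕ → Prop) (δ' : ℝ), HD Q δ' ∧ δ - ε < δ' ∧
      ∀ᶠ n : ℕ in atTop, Q n → P n) : HD P δ := by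
  unfold HD at hU ⊢
  rw [Metric.tendsto_atTop] at hU ⊢
  intro ε hε
  obtain ⟨N1, h1⟩ := hU ε hε
  obtain ⟨Q, δ', hQ, hδ', hev⟩ := hlow (ε / 3) (by positivity)
  unfold HD at hQ
  rw [Metric.tendsto_atTop] at hQ
  obtain ⟨N2, h2⟩ := hQ (ε / 3) (by positivity)
  obtain ⟨n0, hn0⟩ := eventually_atTop.1 hev
  obtain ⟨N3, hN3⟩ := exists_nat_gt (3 * ((n0 : ℝ) + 1) / ε)
  refine ⟨max (max N1 N2) (max N3 1), fun N hN => ?_⟩
  have hN1 : N1 ≤ N := ((le_max_left _ _).trans (le_max_left _ _)).trans hN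
  have hN2 : N2 ≤ N := ((le_max_right _ _).trans (le_max_left _ _)).trans hN
  have hN3' : N3 ≤ N := ((le_max_left _ _).trans (le_max_right _ _)).trans hN
  have hN4 : 1 ≤ N := ((le_max_right _ _).trans (le_max_right _ _)).trans hN
  have hNR : (0 : ℝ) < N := by exact_mod_cast hN4
  have a1 := h1 N hN1
  have a2 := h2 N hN2
  rw [Real.dist_eq, abs_lt] at a1 a2 ⊢
  have b1 : ({n : ℕ | 1 ≤ n ∧ n ≤ N ∧ P n}.ncard : ℝ) ≤ ({n : ℕ | 1 ≤ n ∧ n ≤ N ∧ U n}.ncard : ℝ) := by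
    have hsub : {n : ℕ | 1 ≤ n ∧ n ≤ N ∧ P n} ⊆ {n : ℕ | 1 ≤ n ∧ n ≤ N ∧ U n} := by
      rintro n ⟨h3, h4, h5⟩
      exact ⟨h3, h4, hPU n h5⟩
    exact_mod_cast Set.ncard_le_ncard hsub (fin_le _ N)
  have b2 : ({n : ℕ | 1 ≤ n ∧ n ≤ N ∧ Q n}.ncard : ℝ) ≤ ({n : ℕ | 1 ≤ n ∧ n ≤ N ∧ P n}.ncard : ℝ) +
      (n0 + 1) := by
    have hsub : {n : ℕ | 1 ≤ n ∧ n ≤ N ∧ Q n} ⊆ {n : ℕ | 1 ≤ n ∧ n ≤ N ∧ P n} ∪
        ((Finset.range (n0 + 1) : Finset ℕ) : Set ℕ) := by
      rintro n ⟨h3, h4, h5⟩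
      rcases Nat.lt_or_ge n n0 with h6 | h6
      · right
        rw [Finset.coe_range, Set.mem_Iio]; omega
      · left
        exact ⟨h3, h4, hn0 n h6 h5⟩
    have h3 := (Set.ncard_le_ncard hsub ((fin_le _ N).union (Finset.finite_toSet _))).trans
      (Set.ncard_union_le _ _)
    rw [Set.ncard_coe_finset, Finset.card_range] at h3
    exact_mod_cast h3
  have b3 : ((n0 : ℝ) + 1) / N < ε / 3 := by
    rw [div_lt_iff₀ hNR]
    have h3 : 3 * ((n0 : ℝ) + 1) / ε < N := lt_of_lt_of_le hN3 (by exact_mod_cast hN3')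
    rw [div_lt_iff₀ hε] at h3
    linarith
  have c1 : ({n : ℕ | 1 ≤ n ∧ n ≤ N ∧ P n}.ncard : ℝ) / N ≤ ({n : ℕ | 1 ≤ n ∧ n ≤ N ∧ U n}.ncard : ℝ) / N :=
    div_le_div_of_nonneg_right b1 hNR.le
  have c2 : ({n : ℕ | 1 ≤ n ∧ n ≤ N ∧ Q n}.ncard : ℝ) / N ≤ ({n : ℕ | 1 ≤ n ∧ n ≤ N ∧ P n}.ncard : ℝ) / N +
      ((n0 : ℝ) + 1) / N := by
    rw [← add_div]; exact div_le_div_of_nonneg_right b2 hNR.le
  constructor
  · linarith [a2.1]
  · linarith [a1.2]

/-- for almost all `n` which reach `1` the hitting time is at most `√n / 16` -/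
theorem fast : HD (fun n => (∃ k, Tn^[k] n = 1) → ∃ k : ℕ, (k : ℝ) ≤ √ n / 16 ∧ H k n) 1 := by
  obtain ⟨δ, hδ0, hδ1, -, hB, hlaw⟩ := Pool.Agent.H499R2.LT.law_one
  have hB' : HD (fun n => ∃ k, Tn^[k] n = 1) δ := hB
  have key : HD (fun n => ∃ k : ℕ, (k : ℝ) ≤ √ n / 16 ∧ H k n) δ := by
    apply dens_of hB' (fun n ⟨k, _, hk⟩ => ⟨k, hk.1⟩)
    intro ε hε
    have hPhi := ProbabilityTheory.tendsto_cdf_atTop (ProbabilityTheory.gaussianReal 0 1)
    have h1 : Tendsto (fun x => δ * ProbabilityTheory.cdf (ProbabilityTheory.gaussianReal 0 1) x) atTop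
        (𝓝 (δ * 1)) := hPhi.const_mul δ
    rw [mul_one] at h1
    obtain ⟨x, hx⟩ := (h1.eventually (lt_mem_nhds (by linarith : δ - ε < δ))).exists
    have h2 := (hlaw 1 0 0 le_rfl).2 x
    refine ⟨_, _, h2, ?_, ?_⟩
    · push_cast
      rw [one_pow, div_one]
      exact hx
    · have hL : 0 < Real.log (4 / 3) := Real.log_pos (by norm_num)
      have e1 : ∀ᶠ n : ℕ in atTop, 2 / Real.log (4 / 3) * Real.log n
          + x * (Real.log 3 * Real.sqrt (2 * Real.log n / Real.log (4 / 3) ^ 3)) ≤ √ n / 16 := by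
        set A := 2 / Real.log (4 / 3) with hA
        set B := |x| * Real.log 3 * (2 / Real.log (4 / 3) ^ 3 + 1) with hBd
        have hA0 : 0 < A := by positivity
        have h3 : 0 < Real.log 3 := Real.log_pos (by norm_num)
        have hB0 : 0 ≤ B := by positivity
        have e2 := (isLittleO_log_rpow_atTop (r := 1 / 2) (by norm_num)).bound
          (c := 1 / (16 * (A + B + 1))) (by positivity)
        have e3 := tendsto_natCast_atTop_atTop (R := ℝ) |>.eventually e2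
        have ht : Tendsto (fun n : ℕ => Real.log (n : ℝ)) atTop atTop :=
          Real.tendsto_log_atTop.comp tendsto_natCast_atTop_atTop
        filter_upwards [e3, ht.eventually_ge_atTop 1] with n h4 h5
        rw [Real.norm_of_nonneg (by linarith), Real.norm_of_nonneg (by positivity),
          ← Real.sqrt_eq_rpow] at h4
        set t := Real.log (n : ℝ) with htt
        have h6 : Real.sqrt (2 * t / Real.log (4 / 3) ^ 3) ≤ (2 / Real.log (4 / 3) ^ 3 + 1) * t := by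
          apply Real.sqrt_le_iff.2
          refine ⟨by positivity, ?_⟩
          have h7 : 2 * t / Real.log (4 / 3) ^ 3 = 2 / Real.log (4 / 3) ^ 3 * t := by ring
          rw [h7]
          set u := 2 / Real.log (4 / 3) ^ 3 with hu
          have hu0 : 0 < u := by positivity
          calc u * t ≤ (u + 1) * t * 1 := by nlinarith
            _ ≤ (u + 1) * t * ((u + 1) * t) := by
              apply mul_le_mul_of_nonneg_left _ (by positivity)
              nlinarith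
            _ = ((u + 1) * t) ^ 2 := by ring
        have h8 : x * (Real.log 3 * Real.sqrt (2 * t / Real.log (4 / 3) ^ 3)) ≤ B * t := by
          calc x * (Real.log 3 * Real.sqrt (2 * t / Real.log (4 / 3) ^ 3))
              ≤ |x| * (Real.log 3 * Real.sqrt (2 * t / Real.log (4 / 3) ^ 3)) := by
                apply mul_le_mul_of_nonneg_right (le_abs_self x) (by positivity)
            _ ≤ |x| * (Real.log 3 * ((2 / Real.log (4 / 3) ^ 3 + 1) * t)) := by gcongr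
            _ = B * t := by rw [hBd]; ring
        have h9 : (A + B + 1) * t ≤ √ n / 16 := by
          calc (A + B + 1) * t ≤ (A + B + 1) * (1 / (16 * (A + B + 1)) * √ n) := by gcongr
            _ = √ n / 16 := by field_simp
        nlinarith
      filter_upwards [e1] with n h3
      rintro ⟨k, hk, hk1, _⟩
      exact ⟨k, hk.trans h3, hk1⟩
  -- the difference has density zero
  have hz : HD (fun n => (∃ k, Tn^[k] n = 1) ∧ ¬ ∃ k : ℕ, (k : ℝ) ≤ √ n / 16 ∧ H k n) 0 := by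
    have h1 := hB'.sub key
    rw [sub_self] at h1
    refine h1.congr fun N => ?_
    have hsub : {n : ℕ | 1 ≤ n ∧ n ≤ N ∧ ∃ k : ℕ, (k : ℝ) ≤ √ n / 16 ∧ H k n} ⊆
        {n : ℕ | 1 ≤ n ∧ n ≤ N ∧ ∃ k, Tn^[k] n = 1} := by
      rintro n ⟨h3, h4, k, -, h5⟩
      exact ⟨h3, h4, k, h5.1⟩
    have h2 := Set.ncard_sdiff_add_ncard_of_subset hsub (fin_le _ N)
    have h3 : {n : ℕ | 1 ≤ n ∧ n ≤ N ∧ ∃ k, Tn^[k] n = 1} \
        {n : ℕ | 1 ≤ n ∧ n ≤ N ∧ ∃ k : ℕ, (k : ℝ) ≤ √ n / 16 ∧ H k n} =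
        {n : ℕ | 1 ≤ n ∧ n ≤ N ∧ ((∃ k, Tn^[k] n = 1) ∧ ¬ ∃ k : ℕ, (k : ℝ) ≤ √ n / 16 ∧ H k n)} := by
      ext n
      constructor
      · rintro ⟨⟨g1, g2, g3⟩, g4⟩
        exact ⟨g1, g2, g3, fun g5 => g4 ⟨g1, g2, g5⟩⟩
      · rintro ⟨g1, g2, g3, g4⟩
        exact ⟨⟨g1, g2, g3⟩, fun g5 => g4 g5.2.2⟩
    rw [h3] at h2
    have h4 : ({n : ℕ | 1 ≤ n ∧ n ≤ N ∧ ((∃ k, Tn^[k] n = 1) ∧
        ¬ ∃ k : ℕ, (k : ℝ) ≤ √ n / 16 ∧ H k n)}.ncard : ℝ) +
        ({n : ℕ | 1 ≤ n ∧ n ≤ N ∧ ∃ k : ℕ, (k : ℝ) ≤ √ n / 16 ∧ H k n}.ncard : ℝ) =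
        ({n : ℕ | 1 ≤ n ∧ n ≤ N ∧ ∃ k, Tn^[k] n = 1}.ncard : ℝ) := by exact_mod_cast h2
    rw [← sub_div]
    congr 1
    linarith
  have h1 := HD_not hz
  rw [sub_zero] at h1
  refine h1.congr fun N => ?_
  congr 2
  congr 1
  ext n
  show (1 ≤ n ∧ n ≤ N ∧ ¬ ((∃ k, Tn^[k] n = 1) ∧ ¬ ∃ k : ℕ, (k : ℝ) ≤ √ n / 16 ∧ H k n)) ↔
    (1 ≤ n ∧ n ≤ N ∧ ((∃ k, Tn^[k] n = 1) → ∃ k : ℕ, (k : ℝ) ≤ √ n / 16 ∧ H k n))
  rw [not_and, not_not]

/-! ### the theorem -/

/-- the integers which reach `1` -/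
def S : Set ℤ := {y | ∃ k, Pool.Agent.H499R2.ND.Ci^[k] y = 1}

theorem S_inv (x : ℤ) : x ∈ S ↔ Pool.Agent.H499R2.ND.Ci x ∈ S := by
  constructor
  · rintro ⟨k, hk⟩
    rcases k with _ | k
    · rw [Function.iterate_zero, id] at hk
      refine ⟨2, ?_⟩
      rw [hk]
      decide
    · exact ⟨k, by rw [← Function.iterate_succ_apply]; exact hk⟩
  · rintro ⟨k, hk⟩
    exact ⟨k + 1, by rw [Function.iterate_succ_apply]; exact hk⟩

theorem Ci_nat (k n : ℕ) : Pool.Agent.H499R2.ND.Ci^[k] (n : ℤ) = ((C^[k] n : ℕ) : ℤ) := by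
  induction k with
  | zero => rfl
  | succ k ih =>
    rw [Function.iterate_succ_apply', Function.iterate_succ_apply', ih]
    show (if ((C^[k] n : ℕ) : ℤ) % 2 = 0 then ((C^[k] n : ℕ) : ℤ) / 2 else 3 * ((C^[k] n : ℕ) : ℤ) + 1) = _
    unfold C
    rcases Nat.mod_two_eq_zero_or_one ((fun n : ℕ => if n % 2 = 0 then n / 2 else 3 * n + 1)^[k] n) with h | h
    · rw [if_pos (by omega), if_pos h]; push_cast; rfl
    · rw [if_neg (by omega), if_neg (by omega)]; push_cast; rfl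

theorem mem_S (n : ℕ) : (n : ℤ) ∈ S ↔ l n ≠ ⊤ := by
  have h1 : (n : ℤ) ∈ S ↔ ∃ k, C^[k] n = 1 := by
    constructor
    · rintro ⟨k, hk⟩
      rw [Ci_nat] at hk
      exact ⟨k, by exact_mod_cast hk⟩
    · rintro ⟨k, hk⟩
      refine ⟨k, ?_⟩
      rw [Ci_nat, hk]
      rfl
  rw [h1, l_ne_top]
  constructor
  · rintro ⟨k, hk⟩
    obtain ⟨i, -, hi⟩ := C_hit k n hk
    exact ⟨i, hi⟩
  · rintro ⟨k, hk⟩
    exact ⟨k + odn k n, by rw [C_iter]; exact hk⟩

/-- the integers with the properties used below -/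
theorem generic : ∃ E : ℕ → Prop, HD E 1 ∧ ∀ n, 1 ≤ n → E n →
    (∀ m a b a' b' : ℕ, Linked n m a b a' b' → l m + (a + b' : ℕ) = l n + (a' + b : ℕ)) ∧
    (∀ T : Set ℤ, (∀ m : ℤ, Pool.Agent.W38.AF.NB n (1 * n) m → m ∈ T) ↔
      ∀ m : ℕ, Neighbour n m → (m : ℤ) ∈ T) ∧
    Neighbour n n ∧
    (l n ≠ ⊤ → ∀ m, Neighbour n m → l m ≤ m) := by
  obtain ⟨n1, h1⟩ := times
  obtain ⟨n2, h2⟩ := nb_iff
  obtain ⟨n3, h3⟩ := sizes
  refine ⟨fun n => (((∃ k, Tn^[k] n = 1) → ∃ k : ℕ, (k : ℝ) ≤ √ n / 16 ∧ H k n) ∧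
    Pool.Agent.W38.AF.Nbr 1 n) ∧ max n1 (max n2 n3) ≤ n,
    Pool.Agent.H499R2.HL.HD_and (Pool.Agent.H499R2.HL.HD_and fast
      (Pool.Agent.W38.AF.fwdN (Or.inl rfl))) (Pool.Agent.H499R2.HL.HD_large _), ?_⟩
  rintro n hn ⟨⟨hf, hN⟩, hbig⟩
  have hn1 : n1 ≤ n := (le_max_left _ _).trans hbig
  have hn2 : n2 ≤ n := ((le_max_left _ _).trans (le_max_right _ _)).trans hbig
  have hn3 : n3 ≤ n := ((le_max_right _ _).trans (le_max_right _ _)).trans hbig
  have hK0 : 0 ≤ κ n := Pool.Agent.W38.AF.kap_nonneg n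
  have hself : Neighbour n n := by
    refine ⟨0, 0, 0, 0, by simpa using hK0, by simpa using hK0, by simpa using hK0,
      by simpa using hK0, ?_⟩
    simp
    positivity
  refine ⟨h1 n hn1 hN, h2 n hn2, hself, ?_⟩
  rintro hl m ⟨a, b, a', b', hL⟩
  obtain ⟨k, hk, hkH⟩ := hf (l_ne_top.1 hl)
  have e1 := h1 n hn1 hN m a b a' b' hL
  obtain ⟨s1, s2⟩ := h3 n hn3 m a b a' b' hL.1 hL.2.1 hL.2.2.2.2
  rw [l_of_H hkH] at e1
  have e2 : l m ≤ ((k + odn k n + (a' + b) : ℕ) : ℕ∞) := by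
    calc l m ≤ l m + (a + b' : ℕ) := le_self_add
      _ = _ := by rw [e1]; push_cast; ring
  refine e2.trans ?_
  have e3 : ((k + odn k n + (a' + b) : ℕ) : ℝ) ≤ ((m : ℕ) : ℝ) := by
    have g1 : (odn k n : ℝ) ≤ k := by exact_mod_cast odn_le k n
    have g2 := hL.2.1
    have g3 := hL.2.2.1
    push_cast at s1 ⊢
    have g4 : 0 ≤ √ (n : ℝ) := Real.sqrt_nonneg _
    linarith
  exact_mod_cast e3

/-- **Affine neighbours of almost all integers.** (1) For almost all `n` all the `m` with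
`|2^a 3^b m - 2^a' 3^b' n| ≤ exp (κ n)`, exponents `≤ κ n`, satisfy `l(m) + a + b' = l(n) + a' + b`.
(2) With some `δ < 1`, `δ = 0` if and only if all positive integers reach `1`, in each residue class
modulo `q` the `n` all of whose affine neighbours `m` have `l(m) ≤ m` have density `(1 - δ) / q`, and
the `n` all of whose affine neighbours have `l(m) > m` have density `δ / q`. -/
theorem result :
    HasDensity (fun n => ∀ m a b a' b' : ℕ, Linked n m a b a' b' →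
      l m + (a + b' : ℕ) = l n + (a' + b : ℕ)) 1 ∧
    ∃ δ : ℝ, 0 ≤ δ ∧ δ < 1 ∧ (δ = 0 ↔ ∀ n : ℕ, 1 ≤ n → ∃ k, C^[k] n = 1) ∧
      ∀ q c : ℕ, 0 < q →
        HasDensity (fun n => n % q = c % q ∧ ∀ m : ℕ, Neighbour n m → l m ≤ m) ((1 - δ) / q) ∧
        HasDensity (fun n => n % q = c % q ∧ ∀ m : ℕ, Neighbour n m → (m : ℕ∞) < l m) (δ / q) := by
  obtain ⟨E, hE, hEn⟩ := generic
  refine ⟨?_, ?_⟩
  · exact HD_congr hE hE fun n hn hEn' => ⟨fun _ => (hEn n hn hEn').1, fun _ => hEn'⟩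
  · obtain ⟨δ, h1, h2, h3⟩ := Pool.Agent.W38.AF.inv_nbr (Or.inl rfl : (1 : ℤ) = 1 ∨ (1 : ℤ) = -1) S_inv
    have hpos : 0 < δ := h1.2 ⟨1, ⟨0, rfl⟩, by norm_num⟩
    have hle : δ ≤ 1 := by
      have h4 := (h3 1 0 one_pos).2
      have h5 : (0 : ℝ) ≤ (1 - δ) / (1 : ℕ) :=
        ge_of_tendsto' h4 fun N => by positivity
      push_cast at h5
      linarith
    refine ⟨1 - δ, by linarith, by linarith, ?_, fun q c hq => ⟨?_, ?_⟩⟩
    · constructor
      · intro h n hn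
        have h4 : δ = 1 := by linarith
        have h5 := h2.1 h4 n (by omega)
        obtain ⟨k, hk⟩ := h5
        rw [Ci_nat] at hk
        exact ⟨k, by exact_mod_cast hk⟩
      · intro h
        have h4 : δ = 1 := by
          rw [h2]
          intro x hx
          rw [one_mul] at hx
          obtain ⟨n, rfl⟩ := Int.eq_ofNat_of_zero_le hx.le
          obtain ⟨k, hk⟩ := h n (by omega)
          refine ⟨k, ?_⟩
          show Pool.Agent.H499R2.ND.Ci^[k] (n : ℤ) = 1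
          rw [Ci_nat, hk]
          rfl
        linarith
    · rw [sub_sub_cancel]
      refine HD_congr hE (h3 q c hq).1 fun n hn hEn' => and_congr_right fun _ => ?_
      obtain ⟨g1, g2, g3, g4⟩ := hEn n hn hEn'
      rw [g2]
      constructor
      · intro h
        exact g4 ((mem_S n).1 (h n g3))
      · intro h m hm
        rw [mem_S]
        intro htop
        have := h m hm
        rw [htop] at this
        exact absurd (this.trans_lt (ENat.natCast_lt_top m)) (lt_irrefl _)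
    · refine HD_congr hE (h3 q c hq).2 fun n hn hEn' => and_congr_right fun _ => ?_
      obtain ⟨g1, g2, g3, g4⟩ := hEn n hn hEn'
      have g5 := g2 Sᶜ
      simp only [Set.mem_compl_iff] at g5
      rw [g5]
      constructor
      · intro h m hm
        have h4 : l m = ⊤ := by
          by_contra hne
          exact h m hm ((mem_S m).2 hne)
        rw [h4]
        exact ENat.natCast_lt_top m
      · intro h m hm hmS
        have h4 : l n = ⊤ := by
          by_contra hne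
          have h5 := g4 hne n g3
          exact absurd (h n g3) (not_lt.2 h5)
        obtain ⟨a, b, a', b', hL⟩ := hm
        have h5 := g1 m a b a' b' hL
        rw [h4, top_add] at h5
        apply (mem_S m).1 hmS
        by_contra hne
        obtain ⟨r, hr⟩ := ENat.ne_top_iff_exists.1 hne
        rw [← hr] at h5
        exact absurd h5 (by exact_mod_cast ENat.natCast_ne_top _)


end Pool.Agent.Results.MP_e43fce_nt.TimesOfAffineNeighbours
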