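import Mathlib
import Pool.Agent.V11311.ER.Z4

set_option autoImplicit false

/-!
No long block of a typical trajectory correlates with a polynomial phase.
-/

namespace Pool.Agent.Results.MP_e43fce_nt.PolynomialPhases

open Filter Topology Finset

/-- the `3x+1` function -/
def T (n : ℕ) : ℕ := if n % 2 = 0 then n / 2 else (3 * n + 1) / 2

/-- the proportion of the `n ≤ N` with the property `P N n` tends to `1` -/
def AlmostAll (P : ℕ → ℕ → Prop) : Prop :=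
  Tendsto (fun N : ℕ => ({n : ℕ | 1 ≤ n ∧ n ≤ N ∧ P N n}.ncard : ℝ) / N) atTop (𝓝 1)

/-- the correlation with the phase of the polynomial `P` of the indicator of the residue class `a` modulo `2 ^ k`
along the terms with the indices `s, ..., s + w - 1` of the trajectory of `n` -/
noncomputable def corr (P : Polynomial ℝ) (k a n s w : ℕ) : ℝ :=
  ∑ j ∈ range w, Real.cos (2 * Real.pi * P.eval (j : ℝ)) * ((if T^[s + j] n % 2 ^ k = a then 1 else 0) - 1 / 2 ^ k)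

open Pool.Agent.V11311.RC Pool.Agent.V11311.FP Pool.Agent.V11311.ER

theorem T_eq : T = Pool.Agent.Helper894.Collatz.T := rfl

theorem lv_lt (κ : ℝ) (N z : ℕ) : Lv κ N < z ↔ (N : ℝ) ^ κ < z := by
  unfold Lv
  exact Nat.floor_lt (by positivity)

theorem ind_if (k a x : ℕ) : ind (Cr k a) x = if x % 2 ^ k = a then 1 else 0 := by
  by_cases h : x % 2 ^ k = a
  · rw [if_pos h, ind_pos (A := Cr k a) h]
  · rw [if_neg h, ind_neg (A := Cr k a) h]

theorem almost {P : ℕ → ℕ → Prop} (h : ∀ ε : ℝ, 0 < ε → ∀ᶠ N : ℕ in atTop,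
    (cN (fun n => ¬ P N n) N : ℝ) ≤ ε * N) : AlmostAll P := by
  classical
  have key : ∀ N : ℕ, ({n : ℕ | 1 ≤ n ∧ n ≤ N ∧ P N n}.ncard : ℝ) = N - cN (fun n => ¬ P N n) N := by
    intro N
    have h1 : {n : ℕ | 1 ≤ n ∧ n ≤ N ∧ P N n}.ncard = cN (fun n => P N n) N := by
      unfold cN
      rw [← Set.ncard_coe_finset]
      congr 1
      ext n
      rw [Finset.mem_coe, Finset.mem_filter, Finset.mem_Icc]
      constructor
      · rintro ⟨h1, h2, h3⟩; exact ⟨⟨h1, h2⟩, h3⟩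
      · rintro ⟨⟨h1, h2⟩, h3⟩; exact ⟨h1, h2, h3⟩
    rw [h1]
    have h2 := cN_add_not (fun n => P N n) N
    have h3 : (cN (fun n => P N n) N : ℝ) + cN (fun n => ¬ P N n) N = N := by exact_mod_cast h2
    linarith
  unfold AlmostAll
  simp only [key]
  rw [Metric.tendsto_atTop]
  intro ε hε
  obtain ⟨N0, hN0⟩ := eventually_atTop.1 ((h (ε / 2) (by positivity)).and (eventually_gt_atTop 0))
  refine ⟨N0, fun N hN => ?_⟩
  obtain ⟨h1, h2⟩ := hN0 N hN
  have hNR : (0 : ℝ) < N := by exact_mod_cast h2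
  have h3 : (0 : ℝ) ≤ cN (fun n => ¬ P N n) N := Nat.cast_nonneg _
  rw [Real.dist_eq]
  have e1 : ((N : ℝ) - cN (fun n => ¬ P N n) N) / N - 1 = -((cN (fun n => ¬ P N n) N : ℝ) / N) := by
    field_simp
    ring
  rw [e1, abs_neg, abs_of_nonneg (by positivity), div_lt_iff₀ hNR]
  nlinarith

/-- the condition on `n` -/
theorem main (k : ℕ) (hk : 1 ≤ k) (δ : ℝ) (hδ : 0 < δ) : ∃ C : ℝ, 0 < C ∧ ∀ (D : ℕ) (κ : ℝ), 0 < κ →
    ∀ ε : ℝ, 0 < ε → ∀ᶠ N : ℕ in atTop, (cN (fun n => ¬ ∀ s w : ℕ, C * Real.log (Real.log N) ≤ w →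
      (∀ s', s' < s + w → (N : ℝ) ^ κ < T^[s'] n) → ∀ a, a < 2 ^ k → ∀ P : Polynomial ℝ, P.natDegree ≤ D →
        |corr P k a n s w| ≤ δ * w) N : ℝ) ≤ ε * N := by
  obtain ⟨C, hC, h⟩ := net_law (k := k) hk (δ := min δ 1) (lt_min hδ one_pos) (min_le_right _ _)
  refine ⟨C, hC, fun D κ hκ ε hε => ?_⟩
  filter_upwards [h (FD D) (FD_net hk D) κ hκ ε hε] with N hN
  refine le_trans (Nat.cast_le.2 (cN_mono (fun n _ h1 h2 => h1 ?_) N)) hN
  intro s w hw hs a ha P hP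
  rw [T_eq] at hs
  have h3 := h2 s w hw (fun s' hs' => (lv_lt κ N _).2 (hs s' hs')) a ha
    (fun j => Real.cos (2 * Real.pi * P.eval (j : ℝ))) ⟨P, hP, fun j => rfl⟩
  have e1 : corr P k a n s w = ∑ j ∈ range w, Real.cos (2 * Real.pi * P.eval (j : ℝ)) *
      (ind (Cr k a) (Pool.Agent.Helper894.Collatz.T^[s + j] n) - 1 / 2 ^ k) := by
    unfold corr
    simp only [ind_if]
    rfl
  rw [e1]
  refine h3.trans ?_
  exact mul_le_mul_of_nonneg_right (min_le_left _ _) (Nat.cast_nonneg w)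

/-- **no block of `w ≥ C log log N` terms of a typical trajectory correlates with a polynomial phase** -/
theorem result (k : ℕ) (hk : 1 ≤ k) (δ : ℝ) (hδ : 0 < δ) : ∃ C : ℝ, 0 < C ∧ ∀ (D : ℕ) (κ : ℝ), 0 < κ →
    AlmostAll (fun N n => ∀ s w : ℕ, C * Real.log (Real.log N) ≤ w →
      (∀ s', s' < s + w → (N : ℝ) ^ κ < T^[s'] n) → ∀ a, a < 2 ^ k → ∀ P : Polynomial ℝ, P.natDegree ≤ D →
        |corr P k a n s w| ≤ δ * w) := by
  obtain ⟨C, hC, h⟩ := main k hk δ hδ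
  refine ⟨C, hC, fun D κ hκ => ?_⟩
  have h2 := almost (h D κ hκ)
  exact h2

end Pool.Agent.Results.MP_e43fce_nt.PolynomialPhases
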