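import Pool.Agent.V11201.SH.E
import Pool.Agent.V11201.SH.M3

set_option autoImplicit false

/-! The total stopping times of the Collatz function in short intervals: for almost all `n` almost all
the integers of `(n, n + H]` have the same total stopping time as `n`, at all scales. -/

namespace Pool.Agent.Results.MP_e43fce_nt.ShortIntervals

open Filter Topology

/-- the Collatz function -/
def C (n : ℕ) : ℕ := if n % 2 = 0 then n / 2 else 3 * n + 1

/-- the total stopping time `l(n)`, the least `k ≥ 0` with `C^k(n) = 1`, and `⊤ = ∞` if there is none -/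
noncomputable def l (n : ℕ) : ℕ∞ := sInf {k : ℕ∞ | ∃ j : ℕ, C^[j] n = 1 ∧ k = j}

/-- `n` is an exception to the inequality `l(n) ≤ n`. -/
def Exceptional (n : ℕ) : Prop := (n : ℕ∞) < l n

/-- the positive integers with the property `P` have the natural density `δ` -/
def HasDensity (P : ℕ → Prop) (δ : ℝ) : Prop :=
  Tendsto (fun N : ℕ => ({n : ℕ | 1 ≤ n ∧ n ≤ N ∧ P n}.ncard : ℝ) / N) atTop (𝓝 δ)

/-- the number of the `1 ≤ j ≤ H` with `l(n + j) ≠ l(n)` -/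
noncomputable def changes (n H : ℕ) : ℕ := {j : ℕ | 1 ≤ j ∧ j ≤ H ∧ l (n + j) ≠ l n}.ncard

/-- the number of the exceptions among `n + 1, ..., n + H` -/
noncomputable def exceptions (n H : ℕ) : ℕ := {j : ℕ | 1 ≤ j ∧ j ≤ H ∧ Exceptional (n + j)}.ncard

/-- `g n = n ^ o(1)`: `log (1 + g n) / log n` tends to `0` -/
def SubPower (g : ℕ → ℕ) : Prop := Tendsto (fun n : ℕ => Real.log (1 + g n) / Real.log n) atTop (𝓝 0)

/-- All but `ε H` of the integers of `(n, n + H]` have the total stopping time `l(n)` (finite or infinite);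
if `n` is an exception to `l(n) ≤ n`, so are all but `ε H` of them, if not, at most `ε H` of them are. -/
def Steady (ε : ℝ) (n H : ℕ) : Prop :=
  (changes n H : ℝ) ≤ ε * H ∧ (Exceptional n → (1 - ε) * H ≤ exceptions n H) ∧
    (¬ Exceptional n → (exceptions n H : ℝ) ≤ ε * H)

open Pool.Agent.V11201.SH in
theorem rate : ∃ A : ℝ, 0 < A ∧ Rate (fun n j => l (n + j) ≠ l n) A := by
  obtain ⟨A, hA, h⟩ := same_rate
  exact ⟨A, hA, Rate_mono h fun n j hn hj hne hs => hne (ell_same (by omega) hn hs)⟩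

open Pool.Agent.V11201.SH in
theorem l_le_iff (n : ℕ) : ¬ Exceptional n ↔ ∃ k : ℕ, k ≤ n ∧ Pool.Agent.H499R2.CO.Cn^[k] n = 1 := by
  unfold Exceptional
  rw [not_lt]
  constructor
  · intro h
    by_contra hcon
    push Not at hcon
    have h2 : ((n + 1 : ℕ) : ℕ∞) ≤ l n := by
      refine le_sInf ?_
      rintro k ⟨j, hj, rfl⟩
      have : n + 1 ≤ j := by
        by_contra hlt
        exact hcon j (by omega) hj
      exact_mod_cast this
    have h3 := h2.trans h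
    have h4 : n + 1 ≤ n := by exact_mod_cast h3
    omega
  · rintro ⟨k, hk, h⟩
    have h1 : l n ≤ (k : ℕ∞) := sInf_le ⟨k, h, rfl⟩
    exact h1.trans (by exact_mod_cast hk)

theorem l_top_iff (n : ℕ) : l n ≠ ⊤ ↔ ∃ k : ℕ, Pool.Agent.H499R2.CO.Cn^[k] n = 1 := by
  constructor
  · intro h
    by_contra hcon
    push Not at hcon
    apply h
    have : {k : ℕ∞ | ∃ j : ℕ, C^[j] n = 1 ∧ k = j} = ∅ := by
      rw [Set.eq_empty_iff_forall_notMem]
      rintro k ⟨j, hj, _⟩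
      exact hcon j hj
    unfold l
    rw [this, sInf_empty]
  · rintro ⟨k, h⟩ htop
    have h1 : l n ≤ (k : ℕ∞) := sInf_le ⟨k, h, rfl⟩
    rw [htop] at h1
    exact absurd h1 (by simp)

theorem exc_one {n H : ℕ} (h : ¬ (Exceptional n ∧ l n ≠ ⊤)) (hn : Exceptional n) :
    H ≤ exceptions n H + changes n H := by
  have htop : l n = ⊤ := by
    by_contra hcon
    exact h ⟨hn, hcon⟩
  have hsub : ((Finset.Icc 1 H : Finset ℕ) : Set ℕ) ⊆
      {j : ℕ | 1 ≤ j ∧ j ≤ H ∧ Exceptional (n + j)} ∪ {j : ℕ | 1 ≤ j ∧ j ≤ H ∧ l (n + j) ≠ l n} := by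
    intro j hj
    rw [Finset.coe_Icc] at hj
    by_cases h1 : l (n + j) = l n
    · left
      refine ⟨hj.1, hj.2, ?_⟩
      unfold Exceptional
      rw [h1, htop]
      exact ENat.natCast_lt_top _
    · exact Or.inr ⟨hj.1, hj.2, h1⟩
  have h1 := (Set.ncard_le_ncard hsub ((Pool.Agent.V11201.SH.fin_le _ H).union
    (Pool.Agent.V11201.SH.fin_le _ H))).trans (Set.ncard_union_le _ _)
  rw [Set.ncard_coe_finset, Nat.card_Icc, Nat.add_sub_cancel] at h1
  exact h1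

theorem exc_two {n H : ℕ} (hn : ¬ Exceptional n) : exceptions n H ≤ changes n H := by
  unfold exceptions changes
  apply Set.ncard_le_ncard
  · rintro j ⟨h1, h2, h3⟩
    refine ⟨h1, h2, fun h4 => hn ?_⟩
    unfold Exceptional at h3 ⊢
    rw [h4] at h3
    exact lt_of_le_of_lt (by exact_mod_cast Nat.le_add_right n j) h3
  · exact Pool.Agent.V11201.SH.fin_le _ H

theorem changes_le {n : ℕ} (hn : 1 ≤ n) (H : ℕ) : changes n H ≤ Pool.Agent.V11201.SH.sb 1 n H := by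
  unfold changes Pool.Agent.V11201.SH.sb
  apply Set.ncard_le_ncard
  · rintro j ⟨h1, h2, h3⟩
    refine ⟨h1, h2, fun h4 => h3 ?_⟩
    rw [one_mul] at h4
    exact Pool.Agent.V11201.SH.ell_same (by omega) hn h4
  · exact Pool.Agent.V11201.SH.fin_le _ H

theorem steady_of {n H : ℕ} {ε : ℝ} (h : ¬ (Exceptional n ∧ l n ≠ ⊤)) (h1 : (changes n H : ℝ) ≤ ε * H) :
    Steady ε n H := by
  refine ⟨h1, fun h5 => ?_, fun h5 => ?_⟩
  · have h6 := exc_one (H := H) h h5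
    have h7 : (H : ℝ) ≤ exceptions n H + changes n H := by exact_mod_cast h6
    linarith
  · have h6 : (exceptions n H : ℝ) ≤ changes n H := by exact_mod_cast exc_two (H := H) h5
    linarith

open Pool.Agent.V11201.SH in
/-- THE TOTAL STOPPING TIMES IN SHORT INTERVALS.
(1) For at most `(A / κ) √((1 + log (1 + H)) log log N / log N) N` of the `n ≤ N` more than `κ H` of the
`H` integers after `n` have a total stopping time different from `l(n)` (finite or infinite).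
(2) For every `ε > 0` there is `θ > 0` such that for large `N`, for all but `ε N` of the `n ≤ N` and for ALL
`1 ≤ H ≤ N ^ θ`: all but `ε H` of the integers of `(n, n + H]` have the total stopping time `l(n)`, and all
but `ε H` of them are exceptions to `l(m) ≤ m` if `n` is one, at most `ε H` if not.
(3) Let `g n = n ^ o(1)`. For almost all `n` this is so for all `1 ≤ H ≤ g n`.
(4) The exceptions have a natural density `δ`. -/
theorem result :
    (∃ A : ℝ, 0 < A ∧ ∀ N : ℕ, 16 ≤ N → ∀ (H : ℕ) (κ : ℝ), 0 < κ →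
      ({n : ℕ | 1 ≤ n ∧ n ≤ N ∧ κ * H < changes n H}.ncard : ℝ) ≤
        A / κ * √ ((1 + Real.log (1 + H)) * (Real.log (Real.log N) / Real.log N)) * N) ∧
    (∀ ε : ℝ, 0 < ε → ∃ θ : ℝ, 0 < θ ∧ ∃ N₀ : ℕ, ∀ N ≥ N₀,
      ({n : ℕ | 1 ≤ n ∧ n ≤ N ∧ ¬ ∀ H : ℕ, 1 ≤ H → (H : ℝ) ≤ (N : ℝ) ^ θ → Steady ε n H}.ncard : ℝ) ≤ ε * N) ∧
    (∀ g : ℕ → ℕ, SubPower g → ∀ ε : ℝ, 0 < ε →
      HasDensity (fun n => ∀ H : ℕ, 1 ≤ H → H ≤ g n → Steady ε n H) 1) ∧
    ∃ δ : ℝ, 0 ≤ δ ∧ δ < 1 ∧ (δ = 0 ↔ ∀ n : ℕ, 1 ≤ n → l n ≠ ⊤) ∧ HasDensity Exceptional δ := by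
  obtain ⟨A, hA, hR⟩ := rate
  obtain ⟨δ, h0, h1, h2, h3, h4⟩ := exc
  have hE : HasDensity Exceptional δ := by
    refine Pool.Agent.H499R2.CO.HD_congr (E := fun n => 1 ≤ n) (P := fun n => ¬ ∃ k : ℕ, k ≤ n ∧
      Pool.Agent.H499R2.CO.Cn^[k] n = 1) ?_ h3 (fun n _ _ => ?_)
    · exact Pool.Agent.H499R2.HL.HD_large 1
    · rw [← l_le_iff, not_not]
  have hZ : HasDensity (fun n => Exceptional n ∧ l n ≠ ⊤) 0 := by
    refine Pool.Agent.H499R2.CO.HD_congr (E := fun n => 1 ≤ n) ?_ h4 (fun n _ _ => ?_)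
    · exact Pool.Agent.H499R2.HL.HD_large 1
    · rw [← l_le_iff, not_not, ← l_top_iff]
      exact and_comm
  have hZ' : HasDensity (fun n => ¬ (Exceptional n ∧ l n ≠ ⊤)) 1 := by
    have := Pool.Agent.H499R2.CO.HD_not hZ
    rwa [sub_zero] at this
  refine ⟨⟨A, hA, fun N hN H κ hκ => rate_scale hA hR hN H hκ⟩, fun ε hε => ?_,
    fun g hg ε hε => ?_, δ, h0, h1, ?_, hE⟩
  · obtain ⟨θ, hθ, N0, h⟩ := same_max 1 (ε := min ε (ε / 2)) (by positivity)
    obtain ⟨N1, hN1⟩ := HD_zero_count hZ (ε := ε / 2) (by positivity)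
    refine ⟨θ, hθ, max N0 N1, fun N hN => ?_⟩
    have a1 := h N ((le_max_left _ _).trans hN)
    have a2 := hN1 N ((le_max_right _ _).trans hN)
    have hsub : {n : ℕ | 1 ≤ n ∧ n ≤ N ∧ ¬ ∀ H : ℕ, 1 ≤ H → (H : ℝ) ≤ (N : ℝ) ^ θ → Steady ε n H} ⊆
        {n : ℕ | 1 ≤ n ∧ n ≤ N ∧ ∃ H : ℕ, 1 ≤ H ∧ (H : ℝ) ≤ (N : ℝ) ^ θ ∧ min ε (ε / 2) * H < sb 1 n H} ∪
        {n : ℕ | 1 ≤ n ∧ n ≤ N ∧ (Exceptional n ∧ l n ≠ ⊤)} := by
      rintro n ⟨b1, b2, b3⟩
      by_cases c2 : Exceptional n ∧ l n ≠ ⊤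
      · exact Or.inr ⟨b1, b2, c2⟩
      left
      push Not at b3
      obtain ⟨H, d1, d2, d3⟩ := b3
      refine ⟨b1, b2, H, d1, d2, ?_⟩
      by_contra hcon
      apply d3
      apply steady_of c2
      have h5 : (changes n H : ℝ) ≤ sb 1 n H := by exact_mod_cast changes_le b1 H
      have h6 : min ε (ε / 2) * (H : ℝ) ≤ ε * H := mul_le_mul_of_nonneg_right (min_le_left _ _) (by positivity)
      linarith [not_lt.1 hcon]
    have h5 := (Set.ncard_le_ncard hsub ((fin_le _ N).union (fin_le _ N))).trans (Set.ncard_union_le _ _)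
    have h6 : ({n : ℕ | 1 ≤ n ∧ n ≤ N ∧ ¬ ∀ H : ℕ, 1 ≤ H → (H : ℝ) ≤ (N : ℝ) ^ θ → Steady ε n H}.ncard : ℝ) ≤
        ({n : ℕ | 1 ≤ n ∧ n ≤ N ∧ ∃ H : ℕ, 1 ≤ H ∧ (H : ℝ) ≤ (N : ℝ) ^ θ ∧
          min ε (ε / 2) * H < sb 1 n H}.ncard : ℝ) +
        ({n : ℕ | 1 ≤ n ∧ n ≤ N ∧ (Exceptional n ∧ l n ≠ ⊤)}.ncard : ℝ) := by exact_mod_cast h5
    have h7 : min ε (ε / 2) * (N : ℝ) ≤ ε / 2 * N :=
      mul_le_mul_of_nonneg_right (min_le_right _ _) (by positivity)
    linarith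
  · refine Pool.Agent.H499R2.CO.HD_congr (Pool.Agent.H499R2.HL.HD_and (same_dens 1 hg hε) hZ')
      (Pool.Agent.H499R2.HL.HD_large 0) (fun n hn1 hn => ⟨fun _ H hH1 hH2 => ?_, fun _ => Nat.zero_le n⟩)
    apply steady_of hn.2
    have h5 : (changes n H : ℝ) ≤ sb 1 n H := by exact_mod_cast changes_le hn1 H
    have h6 := hn.1 H hH1 hH2
    linarith
  · rw [h2]
    exact forall₂_congr fun n _ => (l_top_iff n).symm

end Pool.Agent.Results.MP_e43fce_nt.ShortIntervals
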