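import Pool.Agent.Y927.GP.M2
import Pool.Agent.V11113.CT.Traj2
import Pool.Agent.V11113.MR.BilFam

/-!
# Total stopping times and thin families of integers

The families consist of the integers `n = z + u i`, where `z` is an arbitrary integer with `|z| ≤ m ^ B` and the `u i` are the
least residues modulo an arbitrary large integer `m` of a family with exponential sums `O(#s m ^ (-ω))`, with an arbitrarily
small `ω > 0` (`Small`). Examples (part (2)): the values `x · Q y + f₁(x) + f₂(y)` modulo a prime `p` at the pairs of vectors of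
two arbitrary sets with `#A #A' ≥ p ^ (d + 2 ω)`; for `d = 1` this contains the products of the elements of two arbitrary sets
with `#A #A' ≥ p ^ (1 + 2 ω)` and the multiplicative subgroups of order `p ^ (1 / 2 + ω)`. Nothing else is assumed about the
family; it may have as few as about `m ^ (2 ω)` different members.

For all but a proportion `m ^ (-δ)` of the members `n`, if `v = f n` is positive (`f` a nonconstant integer polynomial), then
`l(v) ≤ 3 log v + l(w)` for a term `w ≤ v ^ (1 - η)` of the orbit of `v`; so `l(v) > v` is possible only if the much smaller `w`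
violates the inequality in the stronger form `l(w) ≥ w ^ (1 + η)`.
-/

set_option autoImplicit false

namespace Pool.Agent.Results.MP_e43fce_nt.ThinFamilies

open Finset Filter Polynomial Pool.Agent.Y927.GP Matrix

/-- The Collatz function. -/
def C (n : ℕ) : ℕ := if n % 2 = 1 then 3 * n + 1 else n / 2

/-- The total stopping time. -/
noncomputable def l (n : ℕ) : ℕ∞ := sInf {k : ℕ∞ | ∃ j : ℕ, C^[j] n = 1 ∧ k = j}

/-- The exponential sums over the family `u i ∈ ℤ / m`, `i ∈ s`, at all nonzero frequencies are at most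
`#s m ^ (-ω)`. (`ZMod.stdAddChar` is the character `e(x / m)`.) -/
def Small (m : ℕ) [NeZero m] (ω : ℝ) {ι : Type} (s : Finset ι) (u : ι → ZMod m) : Prop :=
  ∀ b : ZMod m, b ≠ 0 → ‖∑ i ∈ s, (ZMod.stdAddChar (b * u i) : ℂ)‖ ≤ s.card * (m : ℝ) ^ (-ω)

open Classical in
/-- The number of the members `i` of the family for which the integer `n i` does not have the property `P`. -/
noncomputable def exceptions {ι : Type} (s : Finset ι) (n : ι → ℤ) (P : ℤ → Prop) : ℕ :=
  (s.filter (fun i => ¬ P (n i))).card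

theorem exceptions_le {ι : Type} {s : Finset ι} {n : ι → ℤ} {P : ℤ → Prop} {X : ℝ}
    (h : ∀ A ⊆ s, (∀ i ∈ A, ¬ P (n i)) → (A.card : ℝ) ≤ X) : (exceptions s n P : ℝ) ≤ X := by
  classical
  unfold exceptions
  exact h _ (filter_subset _ _) (fun S hS => (mem_filter.1 hS).2)

/-- the accelerated map -/
def T (n : ℕ) : ℕ := if n % 2 = 0 then n / 2 else (3 * n + 1) / 2

theorem T_cast (n : ℕ) : ((T n : ℕ) : ℤ) = Mo.T 2 3 (fun _ => -1) (n : ℤ) := by
  unfold T Mo.T
  push_cast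
  split_ifs with h1 h2 h2 <;> omega

theorem iter_cast (n : ℕ) (k : ℕ) : ((T^[k] n : ℕ) : ℤ) = (Mo.T 2 3 (fun _ => -1))^[k] (n : ℤ) := by
  induction k generalizing n with
  | zero => rfl
  | succ k ih =>
    rw [Function.iterate_succ_apply, Function.iterate_succ_apply, ih, T_cast]

theorem T_C (n : ℕ) (k : ℕ) : ∃ j : ℕ, j ≤ 2 * k ∧ T^[k] n = C^[j] n := by
  induction k with
  | zero => exact ⟨0, le_refl _, rfl⟩
  | succ k ih =>
    obtain ⟨j, h1, h2⟩ := ih
    rw [Function.iterate_succ_apply', h2]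
    by_cases h : C^[j] n % 2 = 0
    · refine ⟨j + 1, by omega, ?_⟩
      rw [Function.iterate_succ_apply']
      obtain ⟨x, hx⟩ : ∃ x, x = C^[j] n := ⟨_, rfl⟩
      rw [← hx] at h ⊢
      unfold T C
      rw [if_pos h, if_neg (by omega)]
    · refine ⟨j + 2, by omega, ?_⟩
      rw [Function.iterate_succ_apply', Function.iterate_succ_apply']
      obtain ⟨x, hx⟩ : ∃ x, x = C^[j] n := ⟨_, rfl⟩
      rw [← hx] at h ⊢
      have h3 : C x = 3 * x + 1 := by
        unfold C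
        rw [if_pos (by omega)]
      rw [h3]
      unfold T C
      rw [if_neg h, if_neg (by omega)]

theorem l_le (n j : ℕ) : l n ≤ (j : ℕ∞) + l (C^[j] n) := by
  rcases eq_or_ne (l (C^[j] n)) ⊤ with h | h
  · rw [h]
    simp
  · have hne : {k : ℕ∞ | ∃ i : ℕ, C^[i] (C^[j] n) = 1 ∧ k = i}.Nonempty := by
      by_contra hcon
      rw [Set.not_nonempty_iff_eq_empty] at hcon
      apply h
      unfold l
      rw [hcon, sInf_empty]
    obtain ⟨i, hi1, hi2⟩ := csInf_mem hne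
    have h1 : l (C^[j] n) = i := hi2
    rw [h1]
    apply sInf_le
    refine ⟨j + i, ?_, by push_cast; rfl⟩
    rw [add_comm, Function.iterate_add_apply]
    exact hi1

theorem large (η : ℝ) (hη : 0 < η) : ∀ᶠ v : ℝ in atTop, v ^ (1 - η) + 3 * Real.log v + 1 ≤ v := by
  have h2 : Tendsto (fun v : ℝ => v ^ (-η)) atTop (nhds 0) := tendsto_rpow_neg_atTop hη
  have h3 : Tendsto (fun v : ℝ => Real.log v / v) atTop (nhds 0) := by
    have := Real.isLittleO_log_id_atTop.tendsto_div_nhds_zero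
    exact this
  have h4 : Tendsto (fun v : ℝ => v⁻¹) atTop (nhds 0) := tendsto_inv_atTop_zero
  have h5 : Tendsto (fun v : ℝ => v ^ (-η) + 3 * (Real.log v / v) + v⁻¹) atTop (nhds (0 + 3 * 0 + 0)) :=
    (h2.add (h3.const_mul 3)).add h4
  have h6 : (0 + 3 * 0 + 0 : ℝ) < 1 := by norm_num
  filter_upwards [h5.eventually (gt_mem_nhds h6), eventually_gt_atTop 0] with v hv hv0
  have h7 := mul_le_mul_of_nonneg_right hv.le hv0.le
  rw [one_mul] at h7
  refine le_trans (le_of_eq ?_) h7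
  rw [Real.rpow_sub hv0, Real.rpow_one, Real.rpow_neg hv0.le]
  field_simp

/-- **Main theorem.** Let `f` be a polynomial of degree at least `1` with integer coefficients, `ω > 0` and `B ≥ 1`.

(1) There are `η, δ > 0` and `m₀` such that for all `m ≥ m₀`, all families with `Small m ω s u` and all integers `z` with
`|z| ≤ m ^ B` all but at most `m ^ (-δ) #s` of the integers `n = z + u i` (`0 ≤ u i < m` the least residue) have the following
property: if `v = f n` is positive, there is a `k ≤ 3 log v` such that `w = C^k(v)` satisfies `w ≤ v ^ (1 - η)` and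
`l(v) ≤ k + l(w)`, and if `l(v) > v`, then `l(w) ≥ w ^ (1 + η)`.

(2) `Small p ω` holds for every prime `p`, every `d`, all sets `A`, `A'` of vectors modulo `p` with
`#A #A' ≥ p ^ (d + 2 ω)`, every invertible matrix `Q` and arbitrary functions `f₁`, `f₂`, for the family
`x · Q y + f₁(x) + f₂(y)`, `x ∈ A`, `y ∈ A'`. -/
theorem result (f : ℤ[X]) (hf : 1 ≤ f.natDegree) (ω : ℝ) (hω : 0 < ω) (B : ℝ) (hB : 1 ≤ B) :
    (∃ η δ : ℝ, 0 < η ∧ 0 < δ ∧ ∃ m₀ : ℕ, ∀ (m : ℕ) [NeZero m], m₀ ≤ m →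
      ∀ (ι : Type) (s : Finset ι) (u : ι → ZMod m), Small m ω s u → ∀ z : ℤ, |(z : ℝ)| ≤ (m : ℝ) ^ B →
      (exceptions s (fun i => z + ((u i).val : ℤ)) (fun n => ∀ v : ℕ, 1 ≤ v → f.eval n = v → ∃ k w : ℕ,
        (k : ℝ) ≤ 3 * Real.log v ∧ w = C^[k] v ∧ (w : ℝ) ≤ (v : ℝ) ^ (1 - η) ∧ l v ≤ (k : ℕ∞) + l w ∧
        ((v : ℕ∞) < l v → (⌈(w : ℝ) ^ (1 + η)⌉₊ : ℕ∞) ≤ l w)) : ℝ) ≤ (m : ℝ) ^ (-δ) * s.card) ∧
    (∀ (p : ℕ) [Fact p.Prime] (d : ℕ) (A A' : Finset (Fin d → ZMod p)) (Q : Matrix (Fin d) (Fin d) (ZMod p)),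
      IsUnit Q.det → (p : ℝ) ^ (d + 2 * ω) ≤ A.card * A'.card → ∀ f₁ f₂ : (Fin d → ZMod p) → ZMod p,
      Small p ω (A ×ˢ A') (fun z => z.1 ⬝ᵥ Q.mulVec z.2 + f₁ z.1 + f₂ z.2)) := by
  refine ⟨?_, ?_⟩
  swap
  · intro p _ d A A' Q hQ hN f₁ f₂ b hb
    exact Pool.Agent.V11113.MR.bil_small ω p d A A' Q hQ f₁ f₂ hN b hb
  have hc : Nat.Coprime 3 2 := by norm_num
  have hr : ∀ j : ℤ, 1 ≤ j → j < (2 : ℕ) → ((2 : ℕ) : ℤ) ∣ ((3 : ℕ) : ℤ) * j - (fun _ : ℤ => (-1 : ℤ)) j := by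
    intro j h1 h2
    push_cast at h2 ⊢
    have hj : j = 1 := by omega
    rw [hj]
    norm_num
  have D := Mo.data (r := fun _ => (-1 : ℤ)) (le_refl 2) hc hr
  have hC := Mo.cls (m := 3) (r := fun _ => (-1 : ℤ)) (le_refl 2)
  have hTT : (Pool.Agent.H319R2.Leigh.gm D).T = Mo.T 2 3 (fun _ => -1) := by
    rw [Pool.Agent.H319R2.Leigh.gm_T, Mo.T_eq]
  have hmu := Mo.mu_eq (le_refl 2) D
  have hl2 : 0 < Real.log 2 := Real.log_pos (by norm_num)
  have hl2' : 2 / 3 < Real.log 2 := by have := Real.log_two_gt_d9; linarith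
  have hμ : mu (Pool.Agent.H319R2.Leigh.gm D) (Mo.CC 2) (fun _ => 1 / ((2 : ℕ) : ℝ)) < 0 := by
    rw [hmu]
    have h2 : Real.log 3 < 2 * Real.log 2 := by
      have : (2 : ℝ) * Real.log 2 = Real.log 4 := by
        rw [show (4 : ℝ) = 2 ^ 2 by norm_num, Real.log_pow]
        norm_num
      rw [this]
      exact Real.log_lt_log (by norm_num) (by norm_num)
    push_cast
    norm_num
    linarith
  obtain ⟨c, c₂, δ, hc0, hc₂, hδ, t₀, h⟩ := Pool.Agent.V11113.CT.drop (Pool.Agent.H319R2.Leigh.gm_fac D)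
    (Pool.Agent.H319R2.Leigh.gm_cls D hC) hμ hf hω
  rw [hTT] at h
  obtain ⟨B', hB', t₁, h'⟩ := Pool.Agent.V11113.CT.size_up f c hc0 (B + 1) (by linarith)
  obtain ⟨η, hη⟩ : ∃ η, η = min (c₂ / B') (1 / 2) := ⟨_, rfl⟩
  have hη0 : 0 < η := by rw [hη]; exact lt_min (by positivity) (by norm_num)
  have hη1 : η ≤ c₂ / B' := by rw [hη]; exact min_le_left _ _
  have hη2 : η ≤ 1 / 2 := by rw [hη]; exact min_le_right _ _
  obtain ⟨V, hV⟩ := eventually_atTop.1 (large (η ^ 2) (by positivity))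
  have hev : ∀ᶠ t : ℝ in atTop, V ≤ Real.exp (c * t) ∧ t₀ ≤ t ∧ t₁ ≤ t ∧ 0 ≤ t := by
    have h1 : Tendsto (fun t : ℝ => Real.exp (c * t)) atTop atTop :=
      Real.tendsto_exp_atTop.comp (tendsto_id.const_mul_atTop hc0)
    filter_upwards [h1.eventually (eventually_ge_atTop _), eventually_ge_atTop t₀, eventually_ge_atTop t₁,
      eventually_ge_atTop 0] with t a1 a2 a3 a4
    exact ⟨a1, a2, a3, a4⟩
  obtain ⟨t₂, ht₂⟩ := eventually_atTop.1 hev
  refine ⟨η, δ, hη0, hδ, max 2 ⌈Real.exp t₂⌉₊, fun m _ hm ι s u hsum z hz => ?_⟩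
  have hm2 : 2 ≤ m := (le_max_left _ _).trans hm
  have hm0 : (0 : ℝ) < m := by exact_mod_cast (by omega : 0 < m)
  have htm : t₂ ≤ Real.log m := by
    rw [Real.le_log_iff_exp_le hm0]
    exact (Nat.le_ceil _).trans (Nat.cast_le.2 ((le_max_right _ _).trans hm))
  have hconv : (m : ℝ) ^ (-δ) = Real.exp (-(δ * Real.log m)) := by
    rw [Real.rpow_def_of_pos hm0]
    congr 1
    ring
  rw [hconv]
  obtain ⟨t, ht⟩ : ∃ t, t = Real.log m := ⟨_, rfl⟩
  rw [← ht] at htm ⊢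
  obtain ⟨hVt, ht1, ht2, ht0⟩ := ht₂ t htm
  apply exceptions_le
  intro A hA hE
  refine h m t ht ht1 s u hsum z A hA (fun S hS => ⟨Mo.mem_S (le_refl 2) _, ?_⟩)
  rintro ⟨h1, k, hk, h2⟩
  apply hE S hS
  intro v hv hfv
  have h5 := Pool.Agent.V11113.CT.member_size hB m hm2 z hz (u S)
  rw [← ht] at h5
  have h6 := h' t ht2 _ h5 h1
  rw [hfv] at h1 h2 h6
  have hgd : ((Pool.Agent.H319R2.Leigh.gm D).d : ℝ) = 2 := rfl
  rw [hgd] at hk
  have hv1 : (1 : ℝ) ≤ v := by exact_mod_cast hv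
  have hv0 : (0 : ℝ) < v := by linarith
  have hvabs : |((v : ℤ) : ℝ)| = v := by
    rw [Int.cast_natCast]
    exact abs_of_nonneg (by linarith)
  rw [hvabs] at h1 h2 h6
  rw [← iter_cast, Int.cast_natCast, abs_of_nonneg (Nat.cast_nonneg _)] at h2
  obtain ⟨j, hj, hTC⟩ := T_C v k
  rw [hTC] at h2
  have hw : ((C^[j] v : ℕ) : ℝ) ≤ (v : ℝ) ^ (1 - η) :=
    (h2.trans (Pool.Agent.V11113.CT.exp_to_pow hc₂ hB' hv0 h6).1).trans
      (Real.rpow_le_rpow_of_exponent_le hv1 (by linarith))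
  have hctv : c * t ≤ Real.log v := by
    rw [Real.le_log_iff_exp_le hv0]
    exact h1
  have hj3 : (j : ℝ) ≤ 3 * Real.log v := by
    have e1 : (j : ℝ) ≤ 2 * k := by exact_mod_cast hj
    have e2 : (k : ℝ) * Real.log 2 ≤ c * t := by rwa [le_div_iff₀ hl2] at hk
    have e3 : (k : ℝ) * (2 / 3) ≤ k * Real.log 2 := mul_le_mul_of_nonneg_left hl2'.le (Nat.cast_nonneg _)
    linarith
  refine ⟨j, C^[j] v, hj3, rfl, hw, l_le v j, fun hlv => ?_⟩
  have hll := l_le v j
  rcases eq_or_ne (l (C^[j] v)) ⊤ with htop | htop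
  · rw [htop]
    exact le_top
  · obtain ⟨L, hL⟩ := ENat.ne_top_iff_exists.1 htop
    rw [← hL] at hll ⊢
    have e1 : ((v : ℕ) : ℕ∞) < ((j + L : ℕ) : ℕ∞) := by
      refine lt_of_lt_of_le hlv (hll.trans (le_of_eq ?_))
      push_cast
      rfl
    have e2 : v < j + L := by exact_mod_cast e1
    have e3 : ⌈((C^[j] v : ℕ) : ℝ) ^ (1 + η)⌉₊ ≤ L := by
      apply Nat.ceil_le.2
      have e4 := hV v (hVt.trans h1)
      have e5 : ((C^[j] v : ℕ) : ℝ) ^ (1 + η) ≤ (v : ℝ) ^ (1 - η ^ 2) := by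
        calc ((C^[j] v : ℕ) : ℝ) ^ (1 + η) ≤ ((v : ℝ) ^ (1 - η)) ^ (1 + η) :=
              Real.rpow_le_rpow (Nat.cast_nonneg _) hw (by linarith)
          _ = (v : ℝ) ^ (1 - η ^ 2) := by
              rw [← Real.rpow_mul hv0.le]
              congr 1
              ring
      have e6 : (v : ℝ) < j + L := by exact_mod_cast e2
      linarith
    exact_mod_cast e3

end Pool.Agent.Results.MP_e43fce_nt.ThinFamilies
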